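import Mathlib

/-!
# Fast contract-signing protocols with logarithmic individual cost

The parties are split into two halves `A` and `B`. The contracts of the parties of `A` first travel
as one bundle through `B` and then, recursively, inside `A`; the contracts of the parties of `B`
travel through `A` and then inside `B`. Every level of the recursion costs every party at most two
envelopes, hence no party pays more than `2 * ⌈log₂ N⌉`.
-/

set_option autoImplicit false

namespace Pool.Agent.Results.MP_e6c168_lc.LogCost

/-- A fast protocol for `N` parties: contract `n` is held by party `P n d` on day `d`, it visits every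
party exactly once and is held by its owner `n` on day `N - 1`. -/
def IsFastProtocol {N : ℕ} (P : Fin N → Equiv.Perm (Fin N)) : Prop :=
  ∀ n d : Fin N, (d : ℕ) + 1 = N → P n d = n

open Classical in
/-- The amount paid by party `i`: the number of pairs `(d, j)` with `d ≤ N - 2` such that some
contract is held by `i` on day `d` and by `j` on day `d + 1`. -/
noncomputable def cost {N : ℕ} (P : Fin N → Equiv.Perm (Fin N)) (i : Fin N) : ℕ :=
  (Finset.univ.filter fun q : Fin N × Fin N =>
    ∃ n, P n q.1 = i ∧ ∃ h : (q.1 : ℕ) + 1 < N, P n ⟨q.1 + 1, h⟩ = q.2).card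

/-- `M N` is the minimum over all fast protocols for `N` parties of the maximal amount paid by a
party: the least `k` such that in some fast protocol no party pays more than `k`. -/
noncomputable def M (N : ℕ) : ℕ :=
  sInf {k | ∃ P : Fin N → Equiv.Perm (Fin N), IsFastProtocol P ∧ ∀ i, cost P i ≤ k}

variable {α : Type} [DecidableEq α]

theorem step (B : List α) (hB : B.Nodup) (x : α) (s t : α) :
    ∃ G : Finset (ℕ × α), G.card ≤ 2 ∧ ∀ l : List α, x ∉ l → (l[0]? = some s ∨ l[0]? = some t) →
      ∀ d j, (B ++ l)[d]? = some x → (B ++ l)[d + 1]? = some j → (d, j) ∈ G := by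
  have hidx : ∀ d, B[d]? = some x → d = B.idxOf x := by
    intro d hd
    obtain ⟨h1, h2⟩ := List.getElem?_eq_some_iff.mp hd
    have h3 := List.Nodup.idxOf_getElem hB d h1
    rw [h2] at h3
    exact h3.symm
  by_cases h : B.idxOf x + 1 < B.length
  · refine ⟨{(B.idxOf x, B[B.idxOf x + 1])}, by simp, fun l hl _ d j h1 h2 => ?_⟩
    have hd : d < B.length := by
      by_contra hcon
      rw [List.getElem?_append_right (by omega)] at h1
      exact hl (List.mem_of_getElem? h1)
    rw [List.getElem?_append_left hd] at h1
    have h3 := hidx d h1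
    subst h3
    rw [List.getElem?_append_left h, List.getElem?_eq_getElem h, Option.some.injEq] at h2
    rw [Finset.mem_singleton, h2]
  · refine ⟨{(B.idxOf x, s), (B.idxOf x, t)}, Finset.card_le_two, fun l hl hst d j h1 h2 => ?_⟩
    have hd : d < B.length := by
      by_contra hcon
      rw [List.getElem?_append_right (by omega)] at h1
      exact hl (List.mem_of_getElem? h1)
    rw [List.getElem?_append_left hd] at h1
    have h3 := hidx d h1
    subst h3
    have h4 : B.idxOf x + 1 = B.length := by omega
    rw [List.getElem?_append_right (by omega), h4, Nat.sub_self] at h2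
    rw [Finset.mem_insert, Finset.mem_singleton]
    rcases hst with hs | ht
    · rw [hs, Option.some.injEq] at h2
      left; rw [h2]
    · rw [ht, Option.some.injEq] at h2
      right; rw [h2]

theorem shift (A : List α) (x : α) (hx : x ∉ A) (F : Finset (ℕ × α)) (l : List α)
    (hF : ∀ d j, l[d]? = some x → l[d + 1]? = some j → (d, j) ∈ F) (d : ℕ) (j : α)
    (h1 : (A ++ l)[d]? = some x) (h2 : (A ++ l)[d + 1]? = some j) :
    (d, j) ∈ F.image fun q => (q.1 + A.length, q.2) := by
  have hd : A.length ≤ d := by
    by_contra hcon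
    rw [List.getElem?_append_left (by omega)] at h1
    exact hx (List.mem_of_getElem? h1)
  rw [List.getElem?_append_right hd] at h1
  rw [List.getElem?_append_right (by omega)] at h2
  have h3 : d + 1 - A.length = d - A.length + 1 := by omega
  rw [h3] at h2
  refine Finset.mem_image.mpr ⟨_, hF _ _ h1 h2, ?_⟩
  simp only [Prod.mk.injEq, and_true]
  omega

theorem exists_routes (m : ℕ) : ∀ L : List α, L.length = m → L.Nodup → 1 ≤ m →
    ∃ R : α → List α, (∀ n ∈ L, (R n).Perm L ∧ (R n)[m - 1]? = some n) ∧
      (∃ s t, ∀ n ∈ L, (R n)[0]? = some s ∨ (R n)[0]? = some t) ∧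
      ∀ x ∈ L, ∃ F : Finset (ℕ × α), F.card ≤ 2 * Nat.clog 2 m ∧
        ∀ n ∈ L, ∀ d j, (R n)[d]? = some x → (R n)[d + 1]? = some j → (d, j) ∈ F := by
  induction m using Nat.strong_induction_on with
  | _ m ih =>
  intro L hL hnd hm
  rcases Nat.lt_or_ge m 2 with h2 | h2
  · obtain ⟨a, rfl⟩ : ∃ a, L = [a] := List.length_eq_one_iff.mp (by omega)
    obtain rfl : m = 1 := by omega
    refine ⟨fun _ => [a], fun n hn => ⟨List.Perm.refl _, ?_⟩, ⟨a, a, fun n _ => by simp⟩,
      fun x _ => ⟨∅, by simp, fun n _ d j _ hj => ?_⟩⟩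
    · rw [List.mem_singleton] at hn
      subst hn
      simp
    · simp at hj
  · obtain ⟨A, B, rfl, hA, hB⟩ : ∃ A B : List α, L = A ++ B ∧ A.length = m / 2 ∧
        B.length = m - m / 2 :=
      ⟨L.take (m / 2), L.drop (m / 2), (List.take_append_drop _ _).symm,
        by rw [List.length_take, hL]; omega, by rw [List.length_drop, hL]⟩
    obtain ⟨hAn, hBn, hAB⟩ := List.nodup_append'.mp hnd
    obtain ⟨RA, hRA, ⟨sA, tA, hstA⟩, hFA⟩ := ih _ (by omega) A hA hAn (by omega)
    obtain ⟨RB, hRB, ⟨sB, tB, hstB⟩, hFB⟩ := ih _ (by omega) B hB hBn (by omega)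
    have hclog : Nat.clog 2 m = Nat.clog 2 (m - m / 2) + 1 := by
      rw [Nat.clog_of_two_le (by norm_num) h2]
      congr 2
      omega
    have hclog2 : Nat.clog 2 (m / 2) ≤ Nat.clog 2 (m - m / 2) :=
      Nat.clog_mono_right 2 (by omega)
    have hA0 : A ≠ [] := by rintro rfl; simp at hA; omega
    have hB0 : B ≠ [] := by rintro rfl; simp at hB; omega
    have hRdA : ∀ n ∈ A, ∀ x ∈ B, x ∉ RA n := fun n hn x hx hxR =>
      hAB ((hRA n hn).1.mem_iff.mp hxR) hx
    have hRdB : ∀ n ∈ B, ∀ x ∈ A, x ∉ RB n := fun n hn x hx hxR =>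
      hAB hx ((hRB n hn).1.mem_iff.mp hxR)
    refine ⟨fun n => if n ∈ A then B ++ RA n else A ++ RB n, fun n hn => ?_,
      ⟨B.head hB0, A.head hA0, fun n hn => ?_⟩, fun x hx => ?_⟩
    · beta_reduce
      by_cases hnA : n ∈ A
      · rw [if_pos hnA]
        constructor
        · exact ((hRA n hnA).1.append_left B).trans List.perm_append_comm
        · have hlen := (hRA n hnA).1.length_eq
          rw [List.getElem?_append_right (by omega)]
          have : m - 1 - B.length = m / 2 - 1 := by omega
          rw [this]
          exact (hRA n hnA).2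
      · have hnB : n ∈ B := (List.mem_append.mp hn).resolve_left hnA
        rw [if_neg hnA]
        constructor
        · exact (hRB n hnB).1.append_left A
        · have hlen := (hRB n hnB).1.length_eq
          rw [List.getElem?_append_right (by omega)]
          have : m - 1 - A.length = m - m / 2 - 1 := by omega
          rw [this]
          exact (hRB n hnB).2
    · beta_reduce
      by_cases hnA : n ∈ A
      · left
        rw [if_pos hnA, List.getElem?_append_left (by omega), ← List.head?_eq_getElem?,
          List.head?_eq_some_head hB0]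
      · right
        rw [if_neg hnA, List.getElem?_append_left (by omega), ← List.head?_eq_getElem?,
          List.head?_eq_some_head hA0]
    · rcases List.mem_append.mp hx with hxA | hxB
      · obtain ⟨F, hF, hF'⟩ := hFA x hxA
        obtain ⟨G, hG, hG'⟩ := step A hAn x sB tB
        refine ⟨(F.image fun q => (q.1 + B.length, q.2)) ∪ G, ?_, fun n hn d j h1 h3 => ?_⟩
        · have h4 := Finset.card_union_le (F.image fun q => (q.1 + B.length, q.2)) G
          have h5 : (F.image fun q => (q.1 + B.length, q.2)).card ≤ F.card :=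
            Finset.card_image_le
          omega
        · rw [Finset.mem_union]
          have hxB : x ∉ B := fun h => hAB hxA h
          by_cases hnA : n ∈ A
          · simp only [if_pos hnA] at h1 h3
            exact Or.inl (shift B x hxB F (RA n) (hF' n hnA) d j h1 h3)
          · have hnB : n ∈ B := (List.mem_append.mp hn).resolve_left hnA
            simp only [if_neg hnA] at h1 h3
            exact Or.inr (hG' (RB n) (hRdB n hnB x hxA) (hstB n hnB) d j h1 h3)
      · obtain ⟨F, hF, hF'⟩ := hFB x hxB
        obtain ⟨G, hG, hG'⟩ := step B hBn x sA tA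
        refine ⟨(F.image fun q => (q.1 + A.length, q.2)) ∪ G, ?_, fun n hn d j h1 h3 => ?_⟩
        · have h4 := Finset.card_union_le (F.image fun q => (q.1 + A.length, q.2)) G
          have h5 : (F.image fun q => (q.1 + A.length, q.2)).card ≤ F.card :=
            Finset.card_image_le
          omega
        · rw [Finset.mem_union]
          have hxA : x ∉ A := fun h => hAB h hxB
          by_cases hnA : n ∈ A
          · simp only [if_pos hnA] at h1 h3
            exact Or.inr (hG' (RA n) (hRdA n hnA x hxB) (hstA n hnA) d j h1 h3)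
          · have hnB : n ∈ B := (List.mem_append.mp hn).resolve_left hnA
            simp only [if_neg hnA] at h1 h3
            exact Or.inl (shift A x hxA F (RB n) (hF' n hnB) d j h1 h3)

theorem exists_protocol (N : ℕ) (hN : 1 ≤ N) : ∃ P : Fin N → Equiv.Perm (Fin N),
    IsFastProtocol P ∧ ∀ i, cost P i ≤ 2 * Nat.clog 2 N := by
  obtain ⟨R, hR, _, hF⟩ := exists_routes N (List.finRange N) (List.length_finRange)
    (List.nodup_finRange N) hN
  have hmem : ∀ n : Fin N, n ∈ List.finRange N := List.mem_finRange
  have hlen : ∀ n, (R n).length = N := fun n => by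
    rw [(hR n (hmem n)).1.length_eq, List.length_finRange]
  have hnd : ∀ n, (R n).Nodup := fun n =>
    (hR n (hmem n)).1.nodup_iff.mpr (List.nodup_finRange N)
  let f : Fin N → Fin N → Fin N := fun n d => (R n)[d.val]'(by rw [hlen]; exact d.2)
  have hinj : ∀ n, Function.Injective (f n) := by
    intro n a b hab
    have := (List.Nodup.getElem_inj_iff (hnd n)).mp hab
    exact Fin.ext this
  let P : Fin N → Equiv.Perm (Fin N) := fun n =>
    Equiv.ofBijective (f n) (Finite.injective_iff_bijective.mp (hinj n))
  have hP : ∀ n d, (R n)[d.val]? = some (P n d) := by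
    intro n d
    rw [List.getElem?_eq_getElem (by rw [hlen]; exact d.2)]
    rfl
  refine ⟨P, ?_, fun i => ?_⟩
  · intro n d hd
    have h1 := hP n d
    have h2 := (hR n (hmem n)).2
    have h3 : N - 1 = d.val := by omega
    rw [h3, h1, Option.some.injEq] at h2
    exact h2
  · classical
    obtain ⟨F, hF1, hF2⟩ := hF i (hmem i)
    refine le_trans ?_ hF1
    unfold cost
    refine Finset.card_le_card_of_injOn (fun q => (q.1.val, q.2)) ?_ ?_
    · intro q hq
      have hq' := (Finset.mem_filter.mp (Finset.mem_coe.mp hq)).2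
      obtain ⟨n, h1, h2, h3⟩ := hq'
      refine Finset.mem_coe.mpr (hF2 n (hmem n) _ _ ?_ ?_)
      · rw [hP, h1]
      · rw [← h3]
        exact hP n ⟨q.1 + 1, h2⟩
    · intro q _ q' _ h
      simp only [Prod.mk.injEq] at h
      exact Prod.ext (Fin.ext h.1) h.2

/-- For every `N ≥ 2` there is a fast protocol for `N` parties in which no party pays more than
`2 * ⌈log₂ N⌉`; consequently there is no constant `c > 0` with `M(N) ≥ c N` for every `N ≥ 2`, and in
fact `M(N) / N` tends to `0`. -/
theorem result : (∀ N : ℕ, 2 ≤ N → M N ≤ 2 * Nat.clog 2 N) ∧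
    (¬ ∃ c : ℝ, 0 < c ∧ ∀ N : ℕ, 2 ≤ N → ∀ P : Fin N → Equiv.Perm (Fin N),
      IsFastProtocol P → ∃ i, c * N ≤ cost P i) ∧
    Filter.Tendsto (fun N : ℕ => (M N : ℝ) / N) Filter.atTop (nhds 0) := by
  have hlim : Filter.Tendsto (fun N : ℕ => ((2 * Nat.clog 2 N : ℕ) : ℝ) / N) Filter.atTop
      (nhds 0) := by
    have h1 : Filter.Tendsto (fun N : ℕ => Real.log (N : ℝ) / N) Filter.atTop (nhds 0) := by
      exact (Real.isLittleO_log_id_atTop.tendsto_div_nhds_zero).comp
        (tendsto_natCast_atTop_atTop (R := ℝ))
    have h2 : Filter.Tendsto (fun N : ℕ => (1 : ℝ) / N) Filter.atTop (nhds 0) :=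
      tendsto_one_div_atTop_nhds_zero_nat
    have h3 : Filter.Tendsto (fun N : ℕ => 2 / Real.log 2 * (Real.log (N : ℝ) / N) +
        2 * ((1 : ℝ) / N)) Filter.atTop (nhds 0) := by
      have := (h1.const_mul (2 / Real.log 2)).add (h2.const_mul 2)
      simpa using this
    refine squeeze_zero' (Filter.Eventually.of_forall fun N => by positivity) ?_ h3
    filter_upwards [Filter.eventually_ge_atTop 1] with N hN
    have hNR : (1 : ℝ) ≤ N := by exact_mod_cast hN
    have hlog2 : 0 < Real.log 2 := Real.log_pos (by norm_num)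
    have h4 : (Nat.clog 2 N : ℝ) ≤ Real.log N / Real.log 2 + 1 := by
      rcases Nat.eq_zero_or_pos (Nat.clog 2 N) with h0 | h0
      · rw [h0]
        have : 0 ≤ Real.log N / Real.log 2 := div_nonneg (Real.log_nonneg hNR) hlog2.le
        push_cast
        linarith
      · have h5 : 2 ^ (Nat.clog 2 N - 1) < N := by
          apply (Nat.lt_clog_iff_pow_lt (by norm_num)).mp
          omega
        have h6 : ((Nat.clog 2 N - 1 : ℕ) : ℝ) * Real.log 2 ≤ Real.log N := by
          rw [← Real.log_pow]
          refine Real.log_le_log (by positivity) ?_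
          exact_mod_cast h5.le
        rw [← sub_le_iff_le_add, le_div_iff₀ hlog2]
        rw [Nat.cast_sub h0] at h6
        push_cast at h6
        exact h6
    have hN0 : (0 : ℝ) < N := by linarith
    calc ((2 * Nat.clog 2 N : ℕ) : ℝ) / N = 2 * (Nat.clog 2 N : ℝ) / N := by push_cast; ring
      _ ≤ 2 * (Real.log N / Real.log 2 + 1) / N := by gcongr
      _ = _ := by field_simp
  have hM : ∀ N : ℕ, 1 ≤ N → M N ≤ 2 * Nat.clog 2 N := fun N hN => Nat.sInf_le
    (exists_protocol N hN)
  refine ⟨fun N hN => hM N (by omega), ?_, ?_⟩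
  · rintro ⟨c, hc, h⟩
    obtain ⟨N, hN, hN2⟩ := ((hlim.eventually (gt_mem_nhds hc)).and
      (Filter.eventually_ge_atTop 2)).exists
    obtain ⟨P, hP, hcost⟩ := exists_protocol N (by omega)
    obtain ⟨i, hi⟩ := h N hN2 P hP
    have h1 : (cost P i : ℝ) ≤ ((2 * Nat.clog 2 N : ℕ) : ℝ) := by exact_mod_cast hcost i
    have hN0 : (0 : ℝ) < N := by
      have : 0 < N := by omega
      exact_mod_cast this
    rw [div_lt_iff₀ hN0] at hN
    linarith
  · refine squeeze_zero' (Filter.Eventually.of_forall fun N => by positivity) ?_ hlim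
    filter_upwards [Filter.eventually_ge_atTop 1] with N hN
    have := hM N hN
    have h1 : (M N : ℝ) ≤ ((2 * Nat.clog 2 N : ℕ) : ℝ) := by exact_mod_cast this
    gcongr

end Pool.Agent.Results.MP_e6c168_lc.LogCost
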